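import Pool.Agent.Helper88.LG.Goals
import Pool.Agent.Helper52.Tot.TW
import Pool.Agent.Helper89.Tot.GS
import Pool.Agent.Helper31.Tot.MP

/-!
# MP_69be96_nt: PACKET PR (pairs of primes at a small distance)
-/

set_option autoImplicit false

open Finset

namespace Pool.Agent.Helper67.LG

open Pool.Agent.Helper94.Tot Pool.Agent.Helper90.Twin Pool.Agent.Helper52.Tot

/-- the weight -/
noncomputable def wP (a : ℕ) (p t : ℕ) : ℝ :=
  if p ∣ 1 * t + 1 ∨ p ∣ 1 * t + (1 + a) then 1 else 0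

theorem wP_nonneg (a p t : ℕ) : 0 ≤ wP a p t := by
  unfold wP; split_ifs <;> norm_num

theorem wP_le_one (a p t : ℕ) : wP a p t ≤ 1 := by
  unfold wP; split_ifs <;> norm_num

theorem wP_per (a p t : ℕ) : wP a p (t + p) = wP a p t := by
  unfold wP
  simp only [dvd_per]

theorem nu_wP (a : ℕ) {p : ℕ} (hp : p.Prime) :
    nu (wP a) p = if p ∣ a then 1 else 2 := by
  have h1 : ¬ p ∣ 1 := fun h => hp.one_lt.ne' (Nat.dvd_one.1 h)
  have e1 : nu (wP a) p = ∑ x ∈ range p, (if p ∣ 1 * x + 1 ∨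
      p ∣ 1 * x + (1 + a) then (1 : ℝ) else 0) := rfl
  rw [e1]
  split_ifs with hL
  · have h2 : ∀ x, (p ∣ 1 * x + 1 ∨ p ∣ 1 * x + (1 + a)) ↔ p ∣ 1 * x + 1 := by
      intro x
      have h3 : 1 * x + (1 + a) = (1 * x + 1) + a := by ring
      rw [h3, Nat.dvd_add_left hL, or_self]
    simp only [h2]
    rw [Finset.sum_boole, card_root' hp h1]
    norm_num
  · have e := nu_union (p := p) (fun t => p ∣ 1 * t + 1)
      (fun t => p ∣ 1 * t + (1 + a)) (by
        rintro x ⟨h2, h3⟩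
        have h4 : 1 * x + (1 + a) = (1 * x + 1) + a := by ring
        rw [h4, Nat.dvd_add_right h2] at h3
        exact hL h3)
    rw [e, card_root' hp h1, card_root' hp h1]
    norm_num

theorem adm_wP {a : ℕ} (_ha : 1 ≤ a) : Adm (wP a) 2 where
  nonneg := fun p _ _ x => wP_nonneg a p x
  le_one := fun p _ _ x => wP_le_one a p x
  per := fun p _ _ x => wP_per a p x
  nu_le := fun p hp _ => by
    rw [nu_wP a hp]
    split_ifs <;> norm_num

theorem prod_wP_le {a : ℕ} (ha : 1 ≤ a) (z : ℕ) :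
    ∏ p ∈ Ps z, (1 - nu (wP a) p / p) ≤
      (∏ p ∈ Ps z, (1 - 1 / (p : ℝ))) ^ 2 * ((a : ℝ) / (Nat.totient a : ℝ)) := by
  have h1 : ∏ p ∈ Ps z, (1 - nu (wP a) p / p) ≤
      ∏ p ∈ Ps z, ((1 - 1 / (p : ℝ)) ^ 2 * if p ∣ a then (1 - 1 / (p : ℝ))⁻¹ else 1) := by
    refine Finset.prod_le_prod (fun p hp => ?_) fun p hp => ?_
    · have := (adm_wP ha).frac_le (mem_Ps.1 hp).2.2 (mem_Ps.1 hp).1
      linarith
    · have hp' := (mem_Ps.1 hp).2.2
      have h5 : (5 : ℝ) ≤ p := by exact_mod_cast (mem_Ps.1 hp).1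
      have h6 : 1 / (p : ℝ) < 1 := by
        rw [div_lt_one (by linarith)]
        linarith
      rw [nu_wP a hp']
      split_ifs
      · have : (1 - 1 / (p : ℝ)) ≠ 0 := by linarith
        rw [sq, mul_assoc, mul_inv_cancel₀ this, mul_one]
      · have : (1 - 1 / (p : ℝ)) ^ 2 * 1 = 1 - 2 / (p : ℝ) + (1 / (p : ℝ)) ^ 2 := by ring
        rw [this]
        have := sq_nonneg (1 / (p : ℝ))
        linarith
  refine h1.trans ?_
  rw [Finset.prod_mul_distrib, Finset.prod_pow]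
  refine mul_le_mul_of_nonneg_left ?_ (sq_nonneg _)
  rw [← Finset.prod_filter, ratio_eq ha]
  have hsub : (Ps z).filter (fun p => p ∣ a) ⊆ a.primeFactors := by
    intro p hp
    rw [Finset.mem_filter] at hp
    exact Nat.mem_primeFactors.2 ⟨(mem_Ps.1 hp.1).2.2, hp.2, by omega⟩
  rw [← Finset.prod_sdiff hsub]
  refine le_mul_of_one_le_left ?_ ?_
  · refine Finset.prod_nonneg fun p hp => ?_
    have := factor_ge (mem_Ps.1 (Finset.mem_filter.1 hp).1).2.2
    linarith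
  · exact one_le_prod_real fun p hp =>
      factor_ge (Nat.prime_of_mem_primeFactors (Finset.mem_sdiff.1 hp).1)

theorem count_le {a : ℕ} (_ha : 1 ≤ a) (N z : ℕ) :
    (((Icc 1 N).filter (fun t => t.Prime ∧ (t + a).Prime)).card : ℝ) ≤
      z + ∑ t ∈ range N, ∏ p ∈ Ps z, (1 - wP a p t) := by
  have hprodnn : ∀ t, 0 ≤ ∏ p ∈ Ps z, (1 - wP a p t) := fun t =>
    Finset.prod_nonneg fun p _ => by linarith [wP_le_one a p t]
  set Aset := (range N).filter (fun t => ∏ p ∈ Ps z, (1 - wP a p t) = 1) with hA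
  have h0 : (Icc 1 N).filter (fun t => t.Prime ∧ (t + a).Prime) ⊆
      Icc 1 z ∪ (Aset.image (fun t => t + 1)) := by
    intro t ht
    rw [Finset.mem_filter, mem_Icc] at ht
    obtain ⟨⟨h1, h2⟩, h3, h4⟩ := ht
    rw [Finset.mem_union]
    rcases le_or_gt t z with h5 | h5
    · exact Or.inl (mem_Icc.2 ⟨h1, h5⟩)
    · right
      rw [Finset.mem_image]
      refine ⟨t - 1, ?_, by omega⟩
      rw [hA, Finset.mem_filter, mem_range]
      refine ⟨by omega, ?_⟩
      refine Finset.prod_eq_one fun q hq => ?_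
      have hq' := mem_Ps.1 hq
      have : wP a q (t - 1) = 0 := by
        unfold wP
        rw [if_neg]
        rintro (h6 | h6)
        · have e : 1 * (t - 1) + 1 = t := by omega
          rw [e] at h6
          rcases (Nat.dvd_prime h3).1 h6 with h8 | h8
          · omega
          · omega
        · have e : 1 * (t - 1) + (1 + a) = t + a := by omega
          rw [e] at h6
          rcases (Nat.dvd_prime h4).1 h6 with h8 | h8
          · omega
          · omega
      rw [this, sub_zero]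
  have h1 : ((Icc 1 N).filter (fun t => t.Prime ∧ (t + a).Prime)).card ≤ z + Aset.card := by
    refine (Finset.card_le_card h0).trans ((Finset.card_union_le _ _).trans ?_)
    refine add_le_add ?_ Finset.card_image_le
    rw [Nat.card_Icc]
    omega
  have h2 : (Aset.card : ℝ) ≤ ∑ t ∈ range N, ∏ p ∈ Ps z, (1 - wP a p t) := by
    calc (Aset.card : ℝ) = ∑ t ∈ Aset, ∏ p ∈ Ps z, (1 - wP a p t) := by
          rw [Finset.sum_congr rfl fun t ht => (Finset.mem_filter.1 ht).2, Finset.sum_const,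
            nsmul_eq_mul, mul_one]
      _ ≤ _ := Finset.sum_le_sum_of_subset_of_nonneg (Finset.filter_subset _ _)
          fun t _ _ => hprodnn t
  have h3 : (((Icc 1 N).filter (fun t => t.Prime ∧ (t + a).Prime)).card : ℝ) ≤
      (z : ℝ) + Aset.card := by exact_mod_cast h1
  linarith

/-- the bound for a fixed distance -/
theorem pairs (hGS : StmtGS) (hMP : StmtMP) (hSz : StmtSz) : ∃ C : ℝ, 0 < C ∧
    ∀ a N : ℕ, 1 ≤ a → 2 ≤ N →
    (((Icc 1 N).filter (fun t => t.Prime ∧ (t + a).Prime)).card : ℝ)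
      ≤ C * (N / (Real.log N) ^ 2) * (a / (Nat.totient a : ℝ)) := by
  obtain ⟨K, C₁, hK, hC₁, hGS⟩ := hGS
  obtain ⟨C₂, hC₂, hMP⟩ := hMP
  obtain ⟨C₃, hC₃, hSz⟩ := hSz
  set k : ℝ := K + 1 with hk
  have hk0 : 0 < k := by positivity
  have hlog4 : 0 < Real.log 4 := Real.log_pos (by norm_num)
  set L0 : ℝ := Real.log ((5 ^ (K + 1) : ℕ) : ℝ) with hL0
  set A : ℝ := (C₂ * Real.log 4) ^ 2 + C₃ ^ 3 with hA
  have hA0 : 0 < A := by positivity
  set C : ℝ := L0 ^ 2 + 16 + C₁ * A * (2 * k) ^ 2 with hC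
  have hC0 : 0 < C := by positivity
  refine ⟨C, hC0, ?_⟩
  intro a N ha hN
  have hR := ratio_ge ha
  set R : ℝ := (a : ℝ) / (Nat.totient a : ℝ) with hRdef
  have hN2 : (2 : ℝ) ≤ N := by exact_mod_cast hN
  have hN0 : (0 : ℝ) < N := by linarith
  have hlogN : 0 < Real.log N := Real.log_pos (by linarith)
  have hlogN2 : 0 < (Real.log N) ^ 2 := by positivity
  rcases lt_or_ge N (5 ^ (K + 1)) with hsmall | hlarge
  · have h1 : (((Icc 1 N).filter (fun t => t.Prime ∧ (t + a).Prime)).card : ℝ) ≤ N := by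
      have : ((Icc 1 N).filter (fun t => t.Prime ∧ (t + a).Prime)).card ≤ N := by
        refine (Finset.card_filter_le _ _).trans ?_
        rw [Nat.card_Icc]
        omega
      exact_mod_cast this
    have h2 : Real.log N ≤ L0 := Real.log_le_log hN0 (by exact_mod_cast hsmall.le)
    have h3 : (Real.log N) ^ 2 ≤ L0 ^ 2 := pow_le_pow_left₀ hlogN.le h2 2
    have h4 : (Real.log N) ^ 2 ≤ C := by
      have : 0 ≤ C₁ * A * (2 * k) ^ 2 := by positivity
      rw [hC]
      linarith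
    have h5 : (N : ℝ) ≤ C * (N / (Real.log N) ^ 2) := by
      rw [mul_div_assoc', le_div_iff₀ hlogN2, mul_comm (N : ℝ)]
      exact mul_le_mul_of_nonneg_right h4 hN0.le
    have h6 : C * (N / (Real.log N) ^ 2) ≤ C * (N / (Real.log N) ^ 2) * R :=
      le_mul_of_one_le_right (by positivity) hR
    linarith
  · -- the choice of `z`
    set z := Nat.findGreatest (fun z => z ^ (K + 1) ≤ N) N with hz
    have h5N : 5 ≤ N := by
      have : 5 ^ 1 ≤ 5 ^ (K + 1) := Nat.pow_le_pow_right (by norm_num) (by omega)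
      omega
    have hz5 : 5 ≤ z := Nat.le_findGreatest h5N hlarge
    have hzN : z ^ (K + 1) ≤ N := Nat.findGreatest_spec (P := fun z => z ^ (K + 1) ≤ N) h5N hlarge
    have hz1N : N < (z + 1) ^ (K + 1) := by
      rcases le_or_gt (z + 1) N with h1 | h1
      · have := Nat.findGreatest_is_greatest (P := fun z => z ^ (K + 1) ≤ N) (n := N) (k := z + 1)
          (by omega) h1
        omega
      · have : z + 1 ≤ (z + 1) ^ (K + 1) := Nat.le_self_pow (by omega) _
        omega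
    have hzK : z ^ K ≤ N := (Nat.pow_le_pow_right (by omega) (by omega)).trans hzN
    have hz2 : z ^ 2 ≤ N := (Nat.pow_le_pow_right (by omega) (by omega)).trans hzN
    have hz5' : (5 : ℝ) ≤ z := by exact_mod_cast hz5
    have hz0 : (0 : ℝ) < z := by linarith
    have hlz1 : 1 ≤ Real.log z := by
      rw [Real.le_log_iff_exp_le hz0]
      have := Real.exp_one_lt_d9
      linarith
    have hlz0 : 0 < Real.log z := by linarith
    have hlogNz : Real.log N ≤ 2 * k * Real.log z := by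
      have h1 : Real.log N ≤ Real.log (((z : ℝ) + 1) ^ (K + 1)) :=
        Real.log_le_log hN0 (by exact_mod_cast hz1N.le)
      rw [Real.log_pow] at h1
      have h2 : Real.log ((z : ℝ) + 1) ≤ 2 * Real.log z := by
        have : Real.log ((z : ℝ) + 1) ≤ Real.log ((z : ℝ) ^ 2) :=
          Real.log_le_log (by linarith) (by nlinarith)
        rw [Real.log_pow] at this
        exact_mod_cast this
      have h3 : ((K + 1 : ℕ) : ℝ) = k := by rw [hk]; push_cast; ring
      rw [h3] at h1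
      nlinarith
    have hinv : 1 / (Real.log z) ^ 2 ≤ (2 * k) ^ 2 / (Real.log N) ^ 2 := by
      rw [div_le_div_iff₀ (by positivity) hlogN2, one_mul, ← mul_pow]
      exact pow_le_pow_left₀ hlogN.le hlogNz 2
    -- the sieve
    have hgs := hGS z N (by omega) hzK (wP a) (adm_wP ha)
    have hcnt := count_le ha N z
    have hprod : ∏ p ∈ Ps z, (1 - nu (wP a) p / p) ≤ (C₂ * Real.log 4) ^ 2 / (Real.log z) ^ 2 * R := by
      refine (prod_wP_le ha z).trans ?_
      have h1 := hMP 4 z (by norm_num) (by omega)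
      have h2 : (Ioc 4 z).filter Nat.Prime = Ps z := by
        ext p
        rw [Finset.mem_filter, mem_Ioc, mem_Ps]
        constructor
        · rintro ⟨⟨h3, h4⟩, h5⟩; exact ⟨by omega, h4, h5⟩
        · rintro ⟨h3, h4, h5⟩; exact ⟨⟨by omega, h4⟩, h5⟩
      rw [h2] at h1
      have h3 : 0 ≤ ∏ p ∈ Ps z, (1 - 1 / (p : ℝ)) := by
        refine Finset.prod_nonneg fun p hp => ?_
        have h5 : (5 : ℝ) ≤ p := by exact_mod_cast (mem_Ps.1 hp).1
        have h6 : 1 / (p : ℝ) < 1 := by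
          rw [div_lt_one (by linarith)]
          linarith
        linarith
      refine mul_le_mul_of_nonneg_right ?_ (by linarith)
      have h4 := pow_le_pow_left₀ h3 h1 2
      refine h4.trans (le_of_eq ?_)
      push_cast
      rw [← div_pow]
      congr 1
      ring
    have hexp : Real.exp (-(3 * Sz z)) ≤ C₃ ^ 3 / (Real.log z) ^ 2 := by
      have h1 := hSz z (by omega)
      have h2 : Real.exp (-(3 * Sz z)) = (Real.exp (-Sz z)) ^ 3 := by
        rw [← Real.exp_nat_mul]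
        congr 1
        push_cast
        ring
      rw [h2]
      refine (pow_le_pow_left₀ (Real.exp_pos _).le h1 3).trans ?_
      rw [div_pow, div_le_div_iff₀ (by positivity) (by positivity)]
      refine mul_le_mul_of_nonneg_left ?_ (by positivity)
      exact pow_le_pow_right₀ hlz1 (by norm_num)
    have hzb : (z : ℝ) ≤ 16 * (N / (Real.log N) ^ 2) := by
      have h1 : Real.log N ≤ (N : ℝ) ^ (1 / 4 : ℝ) / (1 / 4) :=
        Real.log_le_rpow_div hN0.le (by norm_num)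
      have h2 : (Real.log N) ^ 2 ≤ 16 * √N := by
        have h3 : (Real.log N) ^ 2 ≤ ((N : ℝ) ^ (1 / 4 : ℝ) / (1 / 4)) ^ 2 :=
          pow_le_pow_left₀ hlogN.le h1 2
        have h4 : ((N : ℝ) ^ (1 / 4 : ℝ) / (1 / 4)) ^ 2 = 16 * √N := by
          rw [div_pow, ← Real.rpow_natCast, ← Real.rpow_mul hN0.le, Real.sqrt_eq_rpow]
          norm_num
          ring
        rwa [h4] at h3
      have h5 : (z : ℝ) ≤ √N := by
        refine Real.le_sqrt_of_sq_le ?_
        exact_mod_cast hz2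
      rw [mul_div_assoc', le_div_iff₀ hlogN2]
      calc (z : ℝ) * (Real.log N) ^ 2 ≤ √N * (16 * √N) := by gcongr
        _ = 16 * (√N * √N) := by ring
        _ = 16 * N := by rw [Real.mul_self_sqrt hN0.le]
    have hmain : C₁ * N * (∏ p ∈ Ps z, (1 - nu (wP a) p / p) + Real.exp (-(3 * Sz z))) ≤
        C₁ * A * (2 * k) ^ 2 * (N / (Real.log N) ^ 2) * R := by
      have h1 : ∏ p ∈ Ps z, (1 - nu (wP a) p / p) + Real.exp (-(3 * Sz z)) ≤
          A * (1 / (Real.log z) ^ 2) * R := by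
        have h2 : C₃ ^ 3 / (Real.log z) ^ 2 ≤ C₃ ^ 3 / (Real.log z) ^ 2 * R :=
          le_mul_of_one_le_right (by positivity) hR
        calc _ ≤ (C₂ * Real.log 4) ^ 2 / (Real.log z) ^ 2 * R + C₃ ^ 3 / (Real.log z) ^ 2 * R :=
              add_le_add hprod (hexp.trans h2)
          _ = A * (1 / (Real.log z) ^ 2) * R := by rw [hA]; ring
      calc C₁ * N * (∏ p ∈ Ps z, (1 - nu (wP a) p / p) + Real.exp (-(3 * Sz z)))
          ≤ C₁ * N * (A * (1 / (Real.log z) ^ 2) * R) := by gcongr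
        _ ≤ C₁ * N * (A * ((2 * k) ^ 2 / (Real.log N) ^ 2) * R) := by gcongr
        _ = _ := by ring
    have hzR : (z : ℝ) ≤ 16 * (N / (Real.log N) ^ 2) * R :=
      hzb.trans (le_mul_of_one_le_right (by positivity) hR)
    have hL0R : 0 ≤ L0 ^ 2 * (N / (Real.log N) ^ 2) * R := by positivity
    calc (((Icc 1 N).filter (fun t => t.Prime ∧ (t + a).Prime)).card : ℝ)
        ≤ z + ∑ t ∈ range N, ∏ p ∈ Ps z, (1 - wP a p t) := hcnt
      _ ≤ 16 * (N / (Real.log N) ^ 2) * R + C₁ * A * (2 * k) ^ 2 * (N / (Real.log N) ^ 2) * R :=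
          add_le_add hzR (hgs.trans hmain)
      _ ≤ C * (N / (Real.log N) ^ 2) * R := by
          rw [hC]
          linarith


/-! ### the average of `k / φ(k)` -/

theorem telescope (M : ℕ) (hM : 1 ≤ M) :
    ∏ m ∈ Icc 2 M, (1 - 1 / (m : ℝ) ^ 2) = ((M : ℝ) + 1) / (2 * M) := by
  induction M, hM using Nat.le_induction with
  | base => norm_num
  | succ n hn ih =>
    have hn0 : (0 : ℝ) < n := by exact_mod_cast hn
    rw [Finset.prod_Icc_succ_top (by omega), ih]
    push_cast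
    field_simp
    ring

theorem prod_sq_ge {k : ℕ} (hk : 1 ≤ k) :
    1 / 2 ≤ ∏ p ∈ k.primeFactors, (1 - 1 / (p : ℝ) ^ 2) := by
  have hsub : k.primeFactors ⊆ Icc 2 k := by
    intro p hp
    exact mem_Icc.2 ⟨(Nat.prime_of_mem_primeFactors hp).two_le, Nat.le_of_mem_primeFactors hp⟩
  have hf : ∀ m ∈ Icc 2 k, (0 : ℝ) ≤ 1 - 1 / (m : ℝ) ^ 2 ∧ 1 - 1 / (m : ℝ) ^ 2 ≤ 1 := by
    intro m hm
    have h2 : (2 : ℝ) ≤ m := by exact_mod_cast (mem_Icc.1 hm).1
    have h3 : 1 / (m : ℝ) ^ 2 ≤ 1 := by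
      rw [div_le_one (by positivity)]
      nlinarith
    have h4 : 0 ≤ 1 / (m : ℝ) ^ 2 := by positivity
    exact ⟨by linarith, by linarith⟩
  have h1 := telescope k hk
  have hk0 : (0 : ℝ) < k := by exact_mod_cast hk
  have h2 : (1 : ℝ) / 2 ≤ ∏ m ∈ Icc 2 k, (1 - 1 / (m : ℝ) ^ 2) := by
    rw [h1, div_le_div_iff₀ (by norm_num) (by positivity)]
    linarith
  refine h2.trans ?_
  rw [← Finset.prod_sdiff hsub]
  refine mul_le_of_le_one_left (Finset.prod_nonneg fun m hm => (hf m (hsub hm)).1) ?_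
  exact Finset.prod_le_one (fun m hm => (hf m (Finset.mem_sdiff.1 hm).1).1)
    fun m hm => (hf m (Finset.mem_sdiff.1 hm).1).2

theorem prod_add_le {k : ℕ} (hk : 1 ≤ k) :
    ∏ p ∈ k.primeFactors, (1 + 1 / (p : ℝ)) ≤ ∑ d ∈ k.divisors, 1 / (d : ℝ) := by
  classical
  rw [Finset.prod_one_add]
  have hprime : ∀ S ∈ k.primeFactors.powerset, ∀ p ∈ S, p.Prime := fun S hS p hp =>
    Nat.prime_of_mem_primeFactors (Finset.mem_powerset.1 hS hp)
  have h1 : ∑ S ∈ k.primeFactors.powerset, ∏ p ∈ S, 1 / (p : ℝ) =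
      ∑ S ∈ k.primeFactors.powerset, 1 / ((∏ p ∈ S, p : ℕ) : ℝ) := by
    refine Finset.sum_congr rfl fun S _ => ?_
    rw [Nat.cast_prod, Finset.prod_div_distrib, Finset.prod_const_one]
  rw [h1]
  have hinj : Set.InjOn (fun S : Finset ℕ => ∏ p ∈ S, p) (k.primeFactors.powerset : Set _) := by
    intro S hS T hT hST
    have h2 := Nat.primeFactors_prod (hprime S (Finset.mem_coe.1 hS))
    have h3 := Nat.primeFactors_prod (hprime T (Finset.mem_coe.1 hT))
    simp only at hST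
    rw [← h2, ← h3, hST]
  rw [← Finset.sum_image (f := fun d : ℕ => 1 / (d : ℝ)) hinj]
  refine Finset.sum_le_sum_of_subset_of_nonneg ?_ fun d _ _ => by positivity
  intro d hd
  obtain ⟨S, hS, rfl⟩ := Finset.mem_image.1 hd
  refine Nat.mem_divisors.2 ⟨?_, by omega⟩
  exact (Finset.prod_dvd_prod_of_subset _ _ _ (Finset.mem_powerset.1 hS)).trans
    (Nat.prod_primeFactors_dvd k)

theorem ratio_le_divisors {k : ℕ} (hk : 1 ≤ k) :
    (k : ℝ) / (Nat.totient k : ℝ) ≤ 2 * ∑ d ∈ k.divisors, 1 / (d : ℝ) := by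
  rw [ratio_eq hk]
  have h1 := prod_sq_ge hk
  have h2 := prod_add_le hk
  have h3 : (∏ p ∈ k.primeFactors, (1 - 1 / (p : ℝ))⁻¹) *
      ∏ p ∈ k.primeFactors, (1 - 1 / (p : ℝ) ^ 2) = ∏ p ∈ k.primeFactors, (1 + 1 / (p : ℝ)) := by
    rw [← Finset.prod_mul_distrib]
    refine Finset.prod_congr rfl fun p hp => ?_
    have h4 : (2 : ℝ) ≤ p := by exact_mod_cast (Nat.prime_of_mem_primeFactors hp).two_le
    have h5 : (p : ℝ) - 1 ≠ 0 := by linarith
    have h6 : (p : ℝ) ≠ 0 := by linarith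
    have h7 : (1 - 1 / (p : ℝ)) ≠ 0 := by
      have : (1 - 1 / (p : ℝ)) = (p - 1) / p := by field_simp
      rw [this]
      exact div_ne_zero h5 h6
    rw [inv_mul_eq_iff_eq_mul₀ h7]
    field_simp
    ring
  have h4 : 0 ≤ ∏ p ∈ k.primeFactors, (1 - 1 / (p : ℝ))⁻¹ :=
    Finset.prod_nonneg fun p hp => by
      have := factor_ge (Nat.prime_of_mem_primeFactors hp)
      linarith
  have h5 : (∏ p ∈ k.primeFactors, (1 - 1 / (p : ℝ))⁻¹) * (1 / 2) ≤
      (∏ p ∈ k.primeFactors, (1 - 1 / (p : ℝ))⁻¹) *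
        ∏ p ∈ k.primeFactors, (1 - 1 / (p : ℝ) ^ 2) := mul_le_mul_of_nonneg_left h1 h4
  rw [h3] at h5
  linarith

theorem sum_inv_sq (L : ℕ) (hL : 1 ≤ L) :
    ∑ d ∈ Icc 1 L, 1 / (d : ℝ) ^ 2 ≤ 2 - 1 / (L : ℝ) := by
  induction L, hL using Nat.le_induction with
  | base => norm_num
  | succ n hn ih =>
    have hn0 : (0 : ℝ) < n := by exact_mod_cast hn
    rw [Finset.sum_Icc_succ_top (by omega)]
    push_cast
    have h1 : 1 / ((n : ℝ) + 1) ^ 2 ≤ 1 / (n : ℝ) - 1 / ((n : ℝ) + 1) := by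
      rw [div_sub_div _ _ hn0.ne' (by positivity), div_le_div_iff₀ (by positivity) (by positivity)]
      nlinarith
    linarith

theorem sum_divisors_le (L : ℕ) (hL : 1 ≤ L) :
    ∑ k ∈ Icc 1 L, ∑ d ∈ k.divisors, 1 / (d : ℝ) ≤ 2 * L := by
  have h1 : ∀ k ∈ Icc 1 L, ∑ d ∈ k.divisors, 1 / (d : ℝ) =
      ∑ d ∈ Icc 1 L, if d ∣ k then 1 / (d : ℝ) else 0 := by
    intro k hk
    obtain ⟨hk1, hk2⟩ := mem_Icc.1 hk
    rw [← Finset.sum_filter]
    congr 1
    ext d
    rw [Nat.mem_divisors, Finset.mem_filter, mem_Icc]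
    constructor
    · rintro ⟨h2, h3⟩
      exact ⟨⟨Nat.pos_of_dvd_of_pos h2 (by omega), (Nat.le_of_dvd (by omega) h2).trans hk2⟩, h2⟩
    · rintro ⟨_, h2⟩
      exact ⟨h2, by omega⟩
  rw [Finset.sum_congr rfl h1, Finset.sum_comm]
  have h2 : ∀ d ∈ Icc 1 L, (∑ k ∈ Icc 1 L, if d ∣ k then 1 / (d : ℝ) else 0) ≤
      L * (1 / (d : ℝ) ^ 2) := by
    intro d hd
    have hd0 : (0 : ℝ) < d := by exact_mod_cast (mem_Icc.1 hd).1
    rw [← Finset.sum_filter, Finset.sum_const, nsmul_eq_mul]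
    have h3 : ((Icc 1 L).filter (fun k => d ∣ k)).card = L / d := Nat.Ioc_filter_dvd_card_eq_div L d
    rw [h3]
    have h4 : ((L / d : ℕ) : ℝ) ≤ (L : ℝ) / d := Nat.cast_div_le
    calc ((L / d : ℕ) : ℝ) * (1 / (d : ℝ)) ≤ (L : ℝ) / d * (1 / (d : ℝ)) :=
          mul_le_mul_of_nonneg_right h4 (by positivity)
      _ = L * (1 / (d : ℝ) ^ 2) := by field_simp
  refine (Finset.sum_le_sum h2).trans ?_
  rw [← Finset.mul_sum]
  have h5 := sum_inv_sq L hL
  have hL0 : (0 : ℝ) < L := by exact_mod_cast hL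
  have h6 : 0 ≤ 1 / (L : ℝ) := by positivity
  nlinarith

theorem sum_ratio_le (L : ℕ) (hL : 1 ≤ L) :
    ∑ k ∈ Icc 1 L, (k : ℝ) / (Nat.totient k : ℝ) ≤ 4 * L := by
  have h1 : ∑ k ∈ Icc 1 L, (k : ℝ) / (Nat.totient k : ℝ) ≤
      ∑ k ∈ Icc 1 L, 2 * ∑ d ∈ k.divisors, 1 / (d : ℝ) :=
    Finset.sum_le_sum fun k hk => ratio_le_divisors (mem_Icc.1 hk).1
  rw [← Finset.mul_sum] at h1
  have h2 := sum_divisors_le L hL
  linarith

theorem pr : Pool.Agent.Helper88.LG.StmtPR := by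
  obtain ⟨C, hC, h⟩ := pairs Pool.Agent.Helper89.Tot.pf_GS Pool.Agent.Helper31.Tot.pf_MP
    Pool.Agent.Helper31.Tot.pf_Sz
  refine ⟨4 * C, by positivity, ?_⟩
  intro x L hx hL
  have hx0 : (2 : ℝ) ≤ x := by exact_mod_cast hx
  have hlog : 0 < Real.log x := Real.log_pos (by linarith)
  have h1 : (((Icc 1 x ×ˢ Icc 1 L).filter (fun z => z.1.Prime ∧ (z.1 + z.2).Prime)).card : ℝ) =
      ∑ k ∈ Icc 1 L, (((Icc 1 x).filter (fun t => t.Prime ∧ (t + k).Prime)).card : ℝ) := by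
    rw [← Nat.cast_sum]
    congr 1
    simp only [Finset.card_filter]
    rw [Finset.sum_product, Finset.sum_comm]
  rw [h1]
  have h2 : ∑ k ∈ Icc 1 L, (((Icc 1 x).filter (fun t => t.Prime ∧ (t + k).Prime)).card : ℝ) ≤
      ∑ k ∈ Icc 1 L, C * (x / (Real.log x) ^ 2) * (k / (Nat.totient k : ℝ)) :=
    Finset.sum_le_sum fun k hk => h k x (mem_Icc.1 hk).1 hx
  refine h2.trans ?_
  rw [← Finset.mul_sum]
  have h3 : C * (x / (Real.log x) ^ 2) * ∑ k ∈ Icc 1 L, (k : ℝ) / (Nat.totient k : ℝ) ≤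
      C * (x / (Real.log x) ^ 2) * (4 * L) :=
    mul_le_mul_of_nonneg_left (sum_ratio_le L hL) (by positivity)
  refine h3.trans (le_of_eq ?_)
  ring

end Pool.Agent.Helper67.LG
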